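import Pool.Agent.Helper51.PF.Goals

/-!
# MP_c27e85_nt, project PF, packet ORT: orthogonality of characters
-/

set_option autoImplicit false

namespace Pool.Agent.Helper36.PF

open Pool.Agent.Helper51.PF

open Classical in
theorem ort1 (G : Type) [CommGroup G] [Fintype G] [Fintype (G →* ℂˣ)] (g : G) :
    ∑ φ : G →* ℂˣ, ((φ g : ℂˣ) : ℂ) = if g = 1 then (Fintype.card G : ℂ) else 0 := by
  by_cases hg : g = 1
  · rw [if_pos hg, hg]
    have h1 : ∀ φ : G →* ℂˣ, ((φ 1 : ℂˣ) : ℂ) = 1 := fun φ => by rw [map_one, Units.val_one]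
    rw [Finset.sum_congr rfl fun φ _ => h1 φ, Finset.sum_const, Finset.card_univ, nsmul_eq_mul,
      mul_one]
    have h2 := CommGroup.card_monoidHom_of_hasEnoughRootsOfUnity G ℂ
    rw [Nat.card_eq_fintype_card, Nat.card_eq_fintype_card] at h2
    exact_mod_cast h2
  · rw [if_neg hg]
    obtain ⟨φ0, h0⟩ := CommGroup.exists_apply_ne_one_of_hasEnoughRootsOfUnity G ℂ hg
    have h1 : ∑ φ : G →* ℂˣ, ((φ g : ℂˣ) : ℂ) = ((φ0 g : ℂˣ) : ℂ) *
        ∑ φ : G →* ℂˣ, ((φ g : ℂˣ) : ℂ) := by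
      rw [Finset.mul_sum]
      refine (Fintype.sum_equiv (Equiv.mulLeft φ0) _ _ fun φ => ?_).symm
      rw [Equiv.coe_mulLeft, MonoidHom.mul_apply, Units.val_mul]
    have h2 : ((φ0 g : ℂˣ) : ℂ) ≠ 1 := by
      intro h
      exact h0 (Units.ext h)
    have h3 : (1 - ((φ0 g : ℂˣ) : ℂ)) * ∑ φ : G →* ℂˣ, ((φ g : ℂˣ) : ℂ) = 0 := by
      linear_combination h1
    rcases mul_eq_zero.1 h3 with h4 | h4
    · exact absurd (sub_eq_zero.1 h4).symm h2
    · exact h4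

theorem g_ort : G_ORT := by
  intro G _ _ q g
  have h1 : ∑ Φ : Fin q → (G →* ℂˣ), ∏ j, ((Φ j (g j) : ℂˣ) : ℂ) =
      ∏ j, ∑ φ : G →* ℂˣ, ((φ (g j) : ℂˣ) : ℂ) := by
    rw [Finset.prod_univ_sum, Fintype.piFinset_univ]
  rw [h1, Finset.prod_congr rfl fun j _ => ort1 G (g j)]
  by_cases h : ∀ j, g j = 1
  · rw [if_pos h, Finset.prod_congr rfl fun j _ => if_pos (h j), Finset.prod_const,
      Finset.card_univ, Fintype.card_fin]
  · rw [if_neg h]
    push Not at h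
    obtain ⟨j, hj⟩ := h
    exact Finset.prod_eq_zero (Finset.mem_univ j) (if_neg hj)

end Pool.Agent.Helper36.PF
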